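import Pool.Agent.Helper49.RC.St
import Pool.Agent.Helper49.LT.StA

/-!
# Project RC (MP_b21509_co), module POC
-/

set_option autoImplicit false

namespace Pool.Agent.Helper88.RC

open MeasureTheory Set Filter Metric
open Helper97.CB Helper49.LT Helper49.RC

theorem sp_aff (K : Set ℂ) (α β p : ℂ) :
    sp (aff α β 0 '' K) p = sp K ((starRingEnd ℂ) α * p + β * (starRingEnd ℂ) p) := by
  unfold sp
  rw [Set.image_image]
  congr 1
  apply Set.image_congr
  intro z _
  simp only [aff, map_add, map_mul, Complex.conj_conj, add_zero]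
  simp only [Complex.mul_re, Complex.add_re, Complex.add_im, Complex.mul_im, Complex.conj_re,
    Complex.conj_im]
  ring

theorem nrm_id (α β α' β' : ℂ) :
    ‖α * α' + (starRingEnd ℂ) β * β'‖ ^ 2 - ‖(starRingEnd ℂ) α * β' + β * α'‖ ^ 2 =
      (‖α‖ ^ 2 - ‖β‖ ^ 2) * (‖α'‖ ^ 2 - ‖β'‖ ^ 2) := by
  simp only [Complex.sq_norm, Complex.normSq_apply, Complex.mul_re, Complex.add_re,
    Complex.add_im, Complex.mul_im, Complex.conj_re, Complex.conj_im]
  ring

theorem aff_preimage (K : Set ℂ) (α β : ℂ) (h : ‖α‖ ^ 2 - ‖β‖ ^ 2 = 1) :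
    aff α β 0 '' K = (fun y : ℂ => (starRingEnd ℂ) α * y - β * (starRingEnd ℂ) y) ⁻¹' K := by
  have hD : α * (starRingEnd ℂ) α - β * (starRingEnd ℂ) β = 1 := by
    rw [Complex.mul_conj, Complex.mul_conj, Complex.normSq_eq_norm_sq, Complex.normSq_eq_norm_sq,
      ← Complex.ofReal_sub, h, Complex.ofReal_one]
  ext y
  constructor
  · rintro ⟨z, hz, rfl⟩
    simp only [mem_preimage]
    have e : (starRingEnd ℂ) α * aff α β 0 z - β * (starRingEnd ℂ) (aff α β 0 z) = z := by
      simp only [aff, map_add, map_mul, Complex.conj_conj, add_zero]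
      linear_combination z * hD
    rw [e]
    exact hz
  · intro hy
    refine ⟨_, hy, ?_⟩
    simp only [aff, map_sub, map_mul, Complex.conj_conj, add_zero]
    linear_combination y * hD

theorem int_aff (K : Set ℂ) (α β : ℂ) (h : ‖α‖ ^ 2 - ‖β‖ ^ 2 = 1) (h0 : (0 : ℂ) ∈ interior K) :
    (0 : ℂ) ∈ interior (aff α β 0 '' K) := by
  rw [aff_preimage K α β h]
  have hc : Continuous (fun y : ℂ => (starRingEnd ℂ) α * y - β * (starRingEnd ℂ) y) :=
    (continuous_const.mul continuous_id).sub (continuous_const.mul Complex.continuous_conj)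
  apply preimage_interior_subset_interior_preimage hc
  simpa using h0

theorem int_shift (K : Set ℂ) (x : ℂ) (hx : x ∈ interior K) :
    (0 : ℂ) ∈ interior (aff 1 0 (-x) '' K) := by
  have e : aff 1 0 (-x) '' K = (fun y : ℂ => y + x) ⁻¹' K := by
    ext y
    constructor
    · rintro ⟨z, hz, rfl⟩
      simp only [mem_preimage, aff]
      have : 1 * z + 0 * (starRingEnd ℂ) z + -x + x = z := by ring
      rw [this]
      exact hz
    · intro hy
      refine ⟨_, hy, ?_⟩
      simp only [aff]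
      ring
  rw [e]
  have hc : Continuous (fun y : ℂ => y + x) := continuous_id.add continuous_const
  apply preimage_interior_subset_interior_preimage hc
  simpa using hx

/-- POC -/
theorem hPOC (hA : StAff) (h₁ : StPoa) (h₂ : StPob) : StPoc := by
  intro K hK
  obtain ⟨x0, hx0⟩ := hK.2.2
  have hK0 : IsBody (aff 1 0 (-x0) '' K) := (hA K 1 0 (-x0) hK (by simp)).1
  have h00 := int_shift K x0 hx0
  obtain ⟨α, β, hab, hmin⟩ := h₁ _ hK0 h00
  have hlt : ‖β‖ < ‖α‖ := by
    have h1 : ‖β‖ ^ 2 < ‖α‖ ^ 2 := by linarith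
    exact lt_of_pow_lt_pow_left₀ 2 (norm_nonneg _) h1
  have hK1 : IsBody (aff α β 0 '' (aff 1 0 (-x0) '' K)) := (hA _ α β 0 hK0 hlt).1
  have h10 := int_aff _ α β hab h00
  have e : aff α β 0 '' (aff 1 0 (-x0) '' K) =
      aff α β (-(α * x0 + β * (starRingEnd ℂ) x0)) '' K := by
    rw [Set.image_image]
    apply Set.image_congr
    intro z _
    simp only [aff, map_add, map_neg, map_mul, map_one, map_zero]
    ring
  have h2 : hf (aff α β 0 '' (aff 1 0 (-x0) '' K)) 2 = 0 := by
    apply h₂ _ hK1 h10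
    intro α' β' hab'
    have hm := hmin (α * α' + (starRingEnd ℂ) β * β') ((starRingEnd ℂ) α * β' + β * α')
      (by rw [nrm_id, hab, hab', mul_one])
    have e1 : ∀ t : ℝ, sp (aff α β 0 '' (aff 1 0 (-x0) '' K)) (ee t) =
        sp (aff 1 0 (-x0) '' K) ((starRingEnd ℂ) α * ee t + β * ee (-t)) := by
      intro t
      rw [sp_aff, ← ee_neg]
    have e2 : ∀ t : ℝ, sp (aff α β 0 '' (aff 1 0 (-x0) '' K))
        ((starRingEnd ℂ) α' * ee t + β' * ee (-t)) =
        sp (aff 1 0 (-x0) '' K) ((starRingEnd ℂ) (α * α' + (starRingEnd ℂ) β * β') * ee t +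
          ((starRingEnd ℂ) α * β' + β * α') * ee (-t)) := by
      intro t
      rw [sp_aff]
      congr 1
      have h3 : (starRingEnd ℂ) (ee t) = ee (-t) := (ee_neg t).symm
      have h4 : (starRingEnd ℂ) (ee (-t)) = ee t := by
        rw [← ee_neg, neg_neg]
      simp only [map_add, map_mul, Complex.conj_conj, h3, h4]
      ring
    simp only [e1, e2]
    exact hm
  refine ⟨α, β, -(α * x0 + β * (starRingEnd ℂ) x0), hab, ?_, ?_⟩
  · rw [← e]
    exact h10
  · rw [← e]
    exact h2

end Pool.Agent.Helper88.RC
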